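import Pool.Agent.Helper56.AP.Stmts

/-!
# Project A' (MP_8958e8): expansion of `b_2` with cancelled models, and the telescope
-/

open MeasureTheory Set Filter Topology

set_option autoImplicit false

namespace Pool.Agent.Helper69.AP

open Pool.Agent.AP

lemma PU_prime {Is : List (Finset ℕ)} (hp : ∀ I ∈ Is, ∀ p ∈ I, p.Prime) {u q : ℕ} (hu : u ∈ PU Is) (hq : q.Prime)
    (h : q ∣ u) : ∃ I ∈ Is, q ∈ I := by
  induction Is generalizing u with
  | nil =>
    simp only [PU, Finset.mem_singleton] at hu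
    rw [hu] at h
    exact absurd (Nat.dvd_one.mp h) hq.ne_one
  | cons I Is ih =>
    simp only [PU, Finset.mem_image, Finset.mem_product, Prod.exists] at hu
    obtain ⟨p, u', ⟨h1, h2⟩, rfl⟩ := hu
    rcases (Nat.Prime.dvd_mul hq).mp h with h3 | h3
    · have hpp := hp I (List.mem_cons_self) p h1
      have : q = p := (Nat.prime_dvd_prime_iff_eq hq hpp).mp h3
      exact ⟨I, List.mem_cons_self, this ▸ h1⟩
    · obtain ⟨J, hJ, hqJ⟩ := ih (fun I hI => hp I (List.mem_cons_of_mem _ hI)) h2 h3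
      exact ⟨J, List.mem_cons_of_mem _ hJ, hqJ⟩

lemma PU_ne {Is : List (Finset ℕ)} (hp : ∀ I ∈ Is, ∀ p ∈ I, p.Prime) {u : ℕ} (hu : u ∈ PU Is) : u ≠ 0 := by
  induction Is generalizing u with
  | nil =>
    simp only [PU, Finset.mem_singleton] at hu
    omega
  | cons I Is ih =>
    simp only [PU, Finset.mem_image, Finset.mem_product, Prod.exists] at hu
    obtain ⟨p, u', ⟨h1, h2⟩, rfl⟩ := hu
    have hpp := hp I (List.mem_cons_self) p h1
    exact mul_ne_zero hpp.ne_zero (ih (fun I hI => hp I (List.mem_cons_of_mem _ hI)) h2)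

lemma not_dvd {I : Finset ℕ} {Is : List (Finset ℕ)} (hpI : ∀ p ∈ I, p.Prime) (hp : ∀ I ∈ Is, ∀ p ∈ I, p.Prime)
    (hd : ∀ J ∈ Is, Disjoint I J) {p u : ℕ} (h1 : p ∈ I) (h2 : u ∈ PU Is) : ¬ p ∣ u := by
  intro h
  obtain ⟨J, hJ, hpJ⟩ := PU_prime hp h2 (hpI p h1) h
  exact Finset.disjoint_left.mp (hd J hJ) h1 hpJ

lemma PU_cons_sum {I : Finset ℕ} {Is : List (Finset ℕ)} (hpI : ∀ p ∈ I, p.Prime) (hp : ∀ I ∈ Is, ∀ p ∈ I, p.Prime)
    (hd : ∀ J ∈ Is, Disjoint I J) (g : ℕ → ℝ) : ∑ u ∈ PU (I :: Is), g u = ∑ p ∈ I, ∑ u ∈ PU Is, g (p * u) := by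
  rw [PU, Finset.sum_image, Finset.sum_product]
  rintro ⟨p, u⟩ h1 ⟨p', u'⟩ h2 h
  simp only [Finset.coe_product, mem_prod, Finset.mem_coe] at h1 h2
  simp only at h
  have hpp := hpI p h1.1
  have hpp' := hpI p' h2.1
  have h3 : p = p' := by
    have h4 : p ∣ p' * u' := h ▸ Dvd.intro _ rfl
    rcases (Nat.Prime.dvd_mul hpp).mp h4 with h5 | h5
    · exact (Nat.prime_dvd_prime_iff_eq hpp hpp').mp h5
    · exact absurd h5 (not_dvd hpI hp hd h1.1 h2.2)
  subst h3
  have : u = u' := Nat.eq_of_mul_eq_mul_left hpp.pos h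
  rw [this]

lemma tot_mul {p u : ℕ} (hp : p.Prime) (_hu : u ≠ 0) (h : ¬ p ∣ u) :
    ((Nat.totient (p * u) : ℕ) : ℝ) = ((p : ℝ) - 1) * Nat.totient u := by
  rw [Nat.totient_mul ((Nat.Prime.coprime_iff_not_dvd hp).mpr h), Nat.totient_prime hp, Nat.cast_mul,
    Nat.cast_sub hp.one_le, Nat.cast_one]

/-- `∑_{u ∈ PU K} 1/φ(u) = ∏ c_I` -/
lemma sum_inv {K : List (Finset ℕ)} (hp : ∀ I ∈ K, ∀ p ∈ I, p.Prime) (hd : K.Pairwise (fun I J => Disjoint I J)) :
    ∑ u ∈ PU K, (u : ℝ) / Nat.totient u * (1 / u) = (K.map cI).prod := by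
  induction K with
  | nil => simp [PU]
  | cons I K ih =>
    rw [List.pairwise_cons] at hd
    have hpI : ∀ p ∈ I, p.Prime := hp I List.mem_cons_self
    have hpK : ∀ I ∈ K, ∀ p ∈ I, p.Prime := fun I hI => hp I (List.mem_cons_of_mem _ hI)
    rw [PU_cons_sum hpI hpK hd.1, List.map_cons, List.prod_cons, ← ih hpK hd.2, cI, Finset.sum_mul]
    refine Finset.sum_congr rfl fun p hpi => ?_
    rw [Finset.mul_sum]
    refine Finset.sum_congr rfl fun u hu => ?_
    have hpp := hpI p hpi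
    have hu0 := PU_ne hpK hu
    have hnd := not_dvd hpI hpK hd.1 hpi hu
    rw [tot_mul hpp hu0 hnd, Nat.cast_mul]
    have h1 : (p : ℝ) ≠ 0 := by exact_mod_cast hpp.ne_zero
    have h2 : (u : ℝ) ≠ 0 := by exact_mod_cast hu0
    have h3 : (p : ℝ) - 1 ≠ 0 := by
      have : (1:ℝ) < p := by exact_mod_cast hpp.one_lt
      linarith
    have h4 : (Nat.totient u : ℝ) ≠ 0 := by
      have : 0 < Nat.totient u := Nat.totient_pos.mpr (Nat.pos_of_ne_zero hu0)
      exact_mod_cast this.ne'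
    field_simp

/-- `∏ ω_I(n) = ∑_{u ∈ PU K, u | n} u/φ(u)` -/
lemma prod_om {K : List (Finset ℕ)} (hp : ∀ I ∈ K, ∀ p ∈ I, p.Prime) (hd : K.Pairwise (fun I J => Disjoint I J)) (n : ℤ) :
    (K.map fun I => omI I n).prod = ∑ u ∈ PU K, (u : ℝ) / Nat.totient u * (if (u : ℤ) ∣ n then (1 : ℝ) else 0) := by
  induction K with
  | nil => simp [PU]
  | cons I K ih =>
    rw [List.pairwise_cons] at hd
    have hpI : ∀ p ∈ I, p.Prime := hp I List.mem_cons_self
    have hpK : ∀ I ∈ K, ∀ p ∈ I, p.Prime := fun I hI => hp I (List.mem_cons_of_mem _ hI)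
    rw [PU_cons_sum hpI hpK hd.1, List.map_cons, List.prod_cons, ih hpK hd.2, omI, Finset.sum_mul]
    refine Finset.sum_congr rfl fun p hpi => ?_
    rw [Finset.mul_sum]
    refine Finset.sum_congr rfl fun u hu => ?_
    have hpp := hpI p hpi
    have hu0 := PU_ne hpK hu
    have hnd := not_dvd hpI hpK hd.1 hpi hu
    have hco : Nat.Coprime p u := (Nat.Prime.coprime_iff_not_dvd hpp).mpr hnd
    have hiff : (((p * u : ℕ) : ℤ) ∣ n) ↔ ((p : ℤ) ∣ n ∧ (u : ℤ) ∣ n) := by
      rw [Nat.cast_mul]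
      constructor
      · intro h
        exact ⟨(Dvd.intro _ rfl).trans h, (Dvd.intro_left _ rfl).trans h⟩
      · rintro ⟨h1, h2⟩
        exact IsCoprime.mul_dvd (Nat.isCoprime_iff_coprime.mpr hco) h1 h2
    rw [tot_mul hpp hu0 hnd, Nat.cast_mul (α := ℝ)]
    by_cases h1 : (p : ℤ) ∣ n <;> by_cases h2 : (u : ℤ) ∣ n
    · rw [if_pos h1, if_pos h2, if_pos (hiff.mpr ⟨h1, h2⟩), mul_one, mul_one, div_mul_div_comm]
    · rw [if_pos h1, if_neg h2, if_neg (fun h => h2 (hiff.mp h).2)]
      ring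
    · rw [if_neg h1, if_neg (fun h => h1 (hiff.mp h).1)]
      ring
    · rw [if_neg h1, if_neg (fun h => h1 (hiff.mp h).1)]
      ring

lemma cop_of {B : ℕ} {K : List (Finset ℕ)} (hp : ∀ I ∈ K, ∀ p ∈ I, p.Prime ∧ B < p) {b u : ℕ} (hb : 1 ≤ b) (hb2 : b ≤ B)
    (hu : u ∈ PU K) : Nat.Coprime b u := by
  apply Nat.coprime_of_dvd
  intro q hq h1 h2
  obtain ⟨J, hJ, hqJ⟩ := PU_prime (fun I hI p hpi => (hp I hI p hpi).1) hu hq h2
  have h3 := (hp J hJ q hqJ).2
  have h4 := Nat.le_of_dvd (by omega) h1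
  omega

/-- the actual sum over `b` and `u` -/
lemma X_eq (hl : Stmt_lamR_eq) {ι : Type} (S : Finset ι) (N : ι → ℤ) (f : ι → ℝ) {B : ℕ} {K : List (Finset ℕ)}
    (hp : ∀ I ∈ K, ∀ p ∈ I, p.Prime ∧ B < p) (hd : K.Pairwise (fun I J => Disjoint I J)) :
    ∑ b ∈ Finset.Icc 1 B, xi B b * ∑ u ∈ PU K, (u : ℝ) / Nat.totient u * ∑ i ∈ S, f i *
        ((if ((b * u : ℕ) : ℤ) ∣ N i then (1 : ℝ) else 0) - (1 / u) * (if (b : ℤ) ∣ N i then (1 : ℝ) else 0)) =
      (∑ i ∈ S, f i * (lamR B (N i) * (K.map fun I => omI I (N i)).prod)) -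
        (K.map cI).prod * ∑ i ∈ S, f i * lamR B (N i) := by
  have hp' : ∀ I ∈ K, ∀ p ∈ I, p.Prime := fun I hI p hpi => (hp I hI p hpi).1
  have e0 : ∀ i, lamR B (N i) = ∑ b ∈ Finset.Icc 1 B, xi B b * (if (b : ℤ) ∣ N i then (1 : ℝ) else 0) := by
    intro i
    rw [hl, Finset.sum_filter]
    refine Finset.sum_congr rfl fun b _ => ?_
    split_ifs <;> ring
  have e1 : ∑ i ∈ S, f i * (lamR B (N i) * (K.map fun I => omI I (N i)).prod) =
      ∑ b ∈ Finset.Icc 1 B, xi B b * ∑ u ∈ PU K, (u : ℝ) / Nat.totient u * ∑ i ∈ S, f i *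
        (if ((b * u : ℕ) : ℤ) ∣ N i then (1 : ℝ) else 0) := by
    have h1 : ∀ i ∈ S, f i * (lamR B (N i) * (K.map fun I => omI I (N i)).prod) =
        ∑ b ∈ Finset.Icc 1 B, ∑ u ∈ PU K, xi B b * ((u : ℝ) / Nat.totient u) * (f i *
        (if ((b * u : ℕ) : ℤ) ∣ N i then (1 : ℝ) else 0)) := by
      intro i _
      rw [e0, prod_om hp' hd, Finset.sum_mul_sum, Finset.mul_sum]
      refine Finset.sum_congr rfl fun b hb => ?_
      rw [Finset.mul_sum]
      refine Finset.sum_congr rfl fun u hu => ?_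
      obtain ⟨hb1, hb2⟩ := Finset.mem_Icc.mp hb
      have hco := cop_of hp hb1 hb2 hu
      have hiff : (((b * u : ℕ) : ℤ) ∣ N i) ↔ ((b : ℤ) ∣ N i ∧ (u : ℤ) ∣ N i) := by
        rw [Nat.cast_mul]
        constructor
        · intro h
          exact ⟨(Dvd.intro _ rfl).trans h, (Dvd.intro_left _ rfl).trans h⟩
        · rintro ⟨h1, h2⟩
          exact IsCoprime.mul_dvd (Nat.isCoprime_iff_coprime.mpr hco) h1 h2
      by_cases h1 : (b : ℤ) ∣ N i <;> by_cases h2 : (u : ℤ) ∣ N i
      · rw [if_pos h1, if_pos h2, if_pos (hiff.mpr ⟨h1, h2⟩)]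
        ring
      · rw [if_pos h1, if_neg h2, if_neg (fun h => h2 (hiff.mp h).2)]
        ring
      · rw [if_neg h1, if_neg (fun h => h1 (hiff.mp h).1)]
        ring
      · rw [if_neg h1, if_neg (fun h => h1 (hiff.mp h).1)]
        ring
    rw [Finset.sum_congr rfl h1, Finset.sum_comm]
    refine Finset.sum_congr rfl fun b _ => ?_
    rw [Finset.sum_comm, Finset.mul_sum]
    refine Finset.sum_congr rfl fun u _ => ?_
    rw [Finset.mul_sum, Finset.mul_sum]
    refine Finset.sum_congr rfl fun i _ => ?_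
    ring
  have e2 : (K.map cI).prod * ∑ i ∈ S, f i * lamR B (N i) =
      ∑ b ∈ Finset.Icc 1 B, xi B b * ∑ u ∈ PU K, (u : ℝ) / Nat.totient u * ∑ i ∈ S, f i *
        ((1 / u) * (if (b : ℤ) ∣ N i then (1 : ℝ) else 0)) := by
    rw [← sum_inv hp' hd]
    have h1 : ∑ i ∈ S, f i * lamR B (N i) =
        ∑ b ∈ Finset.Icc 1 B, xi B b * ∑ i ∈ S, f i * (if (b : ℤ) ∣ N i then (1 : ℝ) else 0) := by
      have h2 : ∀ i ∈ S, f i * lamR B (N i) =
          ∑ b ∈ Finset.Icc 1 B, xi B b * (f i * (if (b : ℤ) ∣ N i then (1 : ℝ) else 0)) := by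
        intro i _
        rw [e0, Finset.mul_sum]
        exact Finset.sum_congr rfl fun b _ => by ring
      rw [Finset.sum_congr rfl h2, Finset.sum_comm]
      exact Finset.sum_congr rfl fun b _ => by rw [Finset.mul_sum]
    rw [h1, Finset.mul_sum]
    refine Finset.sum_congr rfl fun b _ => ?_
    rw [mul_left_comm, Finset.sum_mul]
    congr 1
    refine Finset.sum_congr rfl fun u _ => ?_
    rw [mul_assoc, Finset.mul_sum]
    congr 1
    exact Finset.sum_congr rfl fun i _ => by ring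
  rw [e1, e2, ← Finset.sum_sub_distrib]
  refine Finset.sum_congr rfl fun b _ => ?_
  rw [← mul_sub, ← Finset.sum_sub_distrib]
  congr 1
  refine Finset.sum_congr rfl fun u _ => ?_
  rw [← mul_sub, ← Finset.sum_sub_distrib]
  congr 1
  exact Finset.sum_congr rfl fun i _ => by ring

theorem link (hl : Stmt_lamR_eq) : Stmt_link := by
  intro ι S N f B Is0 hne hp hd E h
  have hE : 0 ≤ E := (abs_nonneg _).trans (h Is0 (List.Sublist.refl _) hne)
  set X0 : ℝ := ∑ i ∈ S, f i * lamR B (N i) with hX0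
  have hc0 : ∀ I ∈ Is0, 0 ≤ cI I := by
    intro I hI
    unfold cI
    refine Finset.sum_nonneg fun p hpi => ?_
    have : (1:ℝ) < p := by exact_mod_cast (hp I hI p hpi).1.one_lt
    have : (0:ℝ) < p - 1 := by linarith
    positivity
  have key : ∀ (Is K : List (Finset ℕ)), (K ++ Is).Sublist Is0 →
      |(∑ i ∈ S, f i * (lamR B (N i) * (K.map fun I => omI I (N i)).prod * (Is.map fun I => cI I - omI I (N i)).prod)) -
        (if Is = [] then (K.map cI).prod * X0 else 0)| ≤ (Is.map fun I => 1 + cI I).prod * E := by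
    intro Is
    induction Is with
    | nil =>
      intro K hK
      rw [List.append_nil] at hK
      simp only [List.map_nil, List.prod_nil, mul_one, one_mul, if_true]
      have hpK : ∀ I ∈ K, ∀ p ∈ I, p.Prime ∧ B < p := fun I hI => hp I (hK.subset hI)
      have hdK := hd.sublist hK
      have h1 := X_eq hl S N f hpK hdK
      by_cases hK0 : K = []
      · subst hK0
        simp only [List.map_nil, List.prod_nil, mul_one, one_mul]
        rw [hX0, sub_self, abs_zero]
        exact hE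
      · have h2 := h K hK hK0
        rw [h1] at h2
        exact h2
    | cons I Is ih =>
      intro K hK
      have hK1 : (K ++ Is).Sublist Is0 := by
        refine List.Sublist.trans ?_ hK
        exact List.Sublist.append_left (List.sublist_cons_self I Is) K
      have hK2 : ((K ++ [I]) ++ Is).Sublist Is0 := by
        rw [List.append_assoc, List.singleton_append]
        exact hK
      have h1 := ih K hK1
      have h2 := ih (K ++ [I]) hK2
      have hcI : 0 ≤ cI I := hc0 I (hK.subset (by simp))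
      have e1 : ∑ i ∈ S, f i * (lamR B (N i) * (K.map fun I => omI I (N i)).prod *
          ((I :: Is).map fun I => cI I - omI I (N i)).prod) =
          cI I * (∑ i ∈ S, f i * (lamR B (N i) * (K.map fun I => omI I (N i)).prod * (Is.map fun I => cI I - omI I (N i)).prod)) -
          ∑ i ∈ S, f i * (lamR B (N i) * ((K ++ [I]).map fun I => omI I (N i)).prod *
            (Is.map fun I => cI I - omI I (N i)).prod) := by
        rw [Finset.mul_sum, ← Finset.sum_sub_distrib]
        refine Finset.sum_congr rfl fun i _ => ?_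
        rw [List.map_cons, List.prod_cons, List.map_append, List.prod_append, List.map_singleton, List.prod_singleton]
        ring
      rw [if_neg (List.cons_ne_nil I Is), sub_zero, e1, List.map_cons, List.prod_cons]
      set A1 := ∑ i ∈ S, f i * (lamR B (N i) * (K.map fun I => omI I (N i)).prod * (Is.map fun I => cI I - omI I (N i)).prod)
        with hA1
      set A2 := ∑ i ∈ S, f i * (lamR B (N i) * ((K ++ [I]).map fun I => omI I (N i)).prod *
            (Is.map fun I => cI I - omI I (N i)).prod) with hA2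
      set m1 : ℝ := if Is = [] then (K.map cI).prod * X0 else 0 with hm1
      set m2 : ℝ := if Is = [] then ((K ++ [I]).map cI).prod * X0 else 0 with hm2
      have hm : cI I * m1 = m2 := by
        rw [hm1, hm2]
        split_ifs
        · rw [List.map_append, List.prod_append, List.map_singleton, List.prod_singleton]
          ring
        · ring
      have e2 : cI I * A1 - A2 = cI I * (A1 - m1) - (A2 - m2) := by
        rw [← hm]
        ring
      rw [e2]
      calc |cI I * (A1 - m1) - (A2 - m2)| ≤ |cI I * (A1 - m1)| + |A2 - m2| := abs_sub _ _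
        _ = cI I * |A1 - m1| + |A2 - m2| := by rw [abs_mul, abs_of_nonneg hcI]
        _ ≤ cI I * ((Is.map fun I => 1 + cI I).prod * E) + (Is.map fun I => 1 + cI I).prod * E := by gcongr
        _ = _ := by ring
  have h1 := key Is0 [] (by rw [List.nil_append])
  rw [if_neg hne, sub_zero] at h1
  refine le_trans (le_of_eq ?_) h1
  congr 1
  refine Finset.sum_congr rfl fun i _ => ?_
  rw [bb, List.map_nil, List.prod_nil, mul_one]

/-- telescope: `b_2` as a sum over one prime and a free cofactor -/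
theorem telescope (hl : Stmt_lamR_eq) : Stmt_telescope := by
  intro B Is hp hd I hpI hdI n
  have h1 : ∀ p ∈ I, (p : ℤ) ∣ n → bb B Is (n / p) = bb B Is n := by
    intro p hpi hpn
    obtain ⟨hpp, hpB⟩ := hpI p hpi
    have hp0 : (p : ℤ) ≠ 0 := by exact_mod_cast hpp.ne_zero
    have h2 : ∀ q : ℕ, Nat.Coprime q p → ((q : ℤ) ∣ n / p ↔ (q : ℤ) ∣ n) := by
      intro q hq
      obtain ⟨m, rfl⟩ := hpn
      rw [Int.mul_ediv_cancel_left _ hp0]
      constructor
      · intro h
        exact h.mul_left _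
      · intro h
        exact (Nat.isCoprime_iff_coprime.mpr hq).dvd_of_dvd_mul_left h
    unfold bb
    rw [hl, hl]
    congr 1
    · congr 1
      ext b
      simp only [Finset.mem_filter, Finset.mem_Icc, and_congr_right_iff]
      rintro ⟨hb1, hb2⟩
      apply h2
      rw [Nat.coprime_comm, Nat.Prime.coprime_iff_not_dvd hpp]
      intro h3
      have := Nat.le_of_dvd (by omega) h3
      omega
    · congr 1
      apply List.map_congr_left
      intro J hJ
      congr 1
      unfold omI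
      refine Finset.sum_congr rfl fun q hq => ?_
      have hqq := (hp J hJ q hq).1
      have hne : q ≠ p := by
        rintro rfl
        exact Finset.disjoint_left.mp (hdI J hJ) hpi hq
      rw [if_congr (h2 q ((Nat.coprime_primes hqq hpp).mpr hne)) rfl rfl]
  have h3 : ∑ p ∈ I, (p : ℝ) / ((p : ℝ) - 1) * (if (p : ℤ) ∣ n then bb B Is (n / p) else 0) = omI I n * bb B Is n := by
    unfold omI
    rw [Finset.sum_mul]
    refine Finset.sum_congr rfl fun p hpi => ?_
    by_cases h4 : (p : ℤ) ∣ n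
    · rw [if_pos h4, if_pos h4, h1 p hpi h4]
    · rw [if_neg h4, if_neg h4]
      ring
  rw [h3]
  unfold bb
  rw [List.map_cons, List.prod_cons]
  ring

end Pool.Agent.Helper69.AP
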